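import Pool.Agent.H84.SS.Targets
import Pool.Agent.H85.RT.Main

/-!
# Row A_FIN: the final theorem from the theorems for bounded weights
-/

set_option autoImplicit false

namespace Pool.Agent.H35.SS

open MeasureTheory Filter Topology Set ProbabilityTheory
open scoped ENNReal ComplexConjugate
open Pool.Agent.H84.SS
open Pool.Agent.H85.RT (avg GoodWeight Good NullWeight)
open Pool.Agent.H94.RTB (LGood PD)

universe u v

/-- a bounded representative -/
theorem rep1 {Ω : Type v} [MeasurableSpace Ω] {m : Measure Ω} [IsProbabilityMeasure m] {h : Ω → ℂ}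
    (hh : MemLp h ⊤ m) : ∃ (c : ℝ) (h1 : Ω → ℂ), 0 < c ∧ Measurable h1 ∧ (∀ ω, ‖h1 ω‖ ≤ 1) ∧
      h =ᵐ[m] fun ω => (c : ℂ) * h1 ω := by
  obtain ⟨c, f1, f2, hc, hm1, hm2, hb1, hb2, he⟩ := Pool.Agent.H85.RT.rep hh
  refine ⟨c, fun ω => (f1 ω : ℂ) + Complex.I * (f2 ω : ℂ), hc, ?_, fun ω => ?_, he⟩
  · exact (Complex.measurable_ofReal.comp hm1).add
      ((Complex.measurable_ofReal.comp hm2).const_mul _)
  · refine (norm_add_le _ _).trans ?_
    rw [norm_mul, Complex.norm_I, one_mul, Complex.norm_real, Complex.norm_real,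
      Real.norm_eq_abs, Real.norm_eq_abs]
    linarith [hb1 ω, hb2 ω]

/-- the spectral measure of the scaled function -/
theorem spec_scale {Ω : Type v} [MeasurableSpace Ω] {m : Measure Ω} {S : Ω → Ω}
    (hS : MeasurePreserving S m m) {h h1 : Ω → ℂ} {c : ℝ} (hc : 0 < c)
    (he : h =ᵐ[m] fun ω => (c : ℂ) * h1 ω) {σ : Measure T1} (hσ : IsSpec m S h σ) :
    IsSpec m S h1 (ENNReal.ofReal (c⁻¹ ^ 2) • σ) := by
  obtain ⟨hfin, hn⟩ := hσ
  refine ⟨?_, fun n => ?_⟩
  · exact Measure.smul_finite σ ENNReal.ofReal_ne_top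
  · have horb := Pool.Agent.H85.RT.ae_orbit hS he
    have e1 : ∫ ω, h (S^[n] ω) * conj (h ω) ∂m =
        ((c : ℂ) ^ 2) * ∫ ω, h1 (S^[n] ω) * conj (h1 ω) ∂m := by
      rw [← integral_const_mul]
      refine integral_congr_ae ?_
      filter_upwards [horb] with ω hω
      have a0 := hω 0
      have an := hω n
      simp only [Function.iterate_zero, id_eq] at a0
      rw [an, a0, map_mul, Complex.conj_ofReal]
      ring
    have hcc : (c : ℂ) ≠ 0 := by exact_mod_cast hc.ne'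
    rw [integral_smul_measure, ENNReal.toReal_ofReal (by positivity), ← hn n, e1,
      Complex.real_smul]
    push_cast
    field_simp

theorem null_scale {σ : Measure T1} {a : ℝ≥0∞} (h : σ ⟂ₘ (volume : Measure T1)) :
    (a • σ) ⟂ₘ (volume : Measure T1) := Measure.MutuallySingular.smul a h

section one

variable {Ω : Type v} {P : MeasurableSpace Ω} [m0 : MeasurableSpace Ω]

theorem part_one (h1 : A_THW.{u,v}) {m : Measure Ω} [IsProbabilityMeasure m] {S : Ω ≃ᵐ Ω}
    (hS : Ergodic S m) (hP0 : P ≤ m0) (hP : Pool.Agent.H85.RT.IsMono S.toEquiv P) {h : Ω → ℂ}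
    {σ : Measure T1} (hh : MemLp h ⊤ m)
    (hspan : AEStronglyMeasurable[Pool.Agent.H85.RT.span S.toEquiv P] h m)
    (hσ : IsSpec m S (m[h | Pool.Agent.H85.RT.tail S.toEquiv P]) σ)
    (hsing : σ ⟂ₘ (volume : Measure T1)) :
    ∀ᵐ ω ∂m, (GoodWeight.{u} (fun _ => 1) → Good.{u} S h ω) ∧
        ((∀ t, σ {t} = 0) → ∀ (X : Type u) [MeasurableSpace X] (μ : Measure X)
          [IsProbabilityMeasure μ] (T : X ≃ᵐ X), MeasurePreserving T μ μ → DR μ T →
            ∀ f g : X → ℂ, MemLp f ⊤ μ → MemLp g ⊤ μ →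
              ∀ᵐ x ∂μ, Tendsto (fun N => avg T f g (fun n => h (S^[n] ω)) N x) atTop (𝓝 0)) := by
  have hmp : MeasurePreserving S m m := hS.toMeasurePreserving
  set E : Ω → ℂ := m[h | Pool.Agent.H85.RT.tail S.toEquiv P] with hE
  have hEm : MemLp E ⊤ m := hh.condExp le_top
  obtain ⟨c, e, hc, hem, heb, hee⟩ := rep1 hEm
  have hmain := Pool.Agent.H85.RT.complex_main.{u, v} hmp hP0 hP hh hspan
  have hthw := h1 Ω m S hS e (ENNReal.ofReal (c⁻¹ ^ 2) • σ) hem heb
    (spec_scale hmp hc hee hσ) (null_scale hsing)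
  have horb := Pool.Agent.H85.RT.ae_orbit hmp hee
  filter_upwards [hmain, hthw, horb] with ω w1 w2 w3
  have e1 : (fun n => E (S^[n] ω)) = fun n => (c : ℂ) * e (S^[n] ω) := by
    funext n
    exact w3 n
  refine ⟨fun hg => ?_, fun hat X _ μ _ T hT hDR f g hf hg => ?_⟩
  · have g1 : GoodWeight.{u} (fun n => E (S^[n] ω)) := by
      rw [e1]
      exact (w2.1 hg).mul (c : ℂ)
    exact (Pool.Agent.H85.RT.good_iff (v := fun n => E (S^[n] ω)) w1).2 g1
  · have hat' : ∀ t, (ENNReal.ofReal (c⁻¹ ^ 2) • σ) {t} = 0 := by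
      intro t
      rw [Measure.smul_apply, hat t, smul_zero]
    have a1 := w2.2 hat' X μ T hT hDR f g hf hg
    have a2 := w1 X μ T hT f g hf hg
    filter_upwards [a1, a2] with x x1 x2
    have x3 := x2.add (x1.const_mul (c : ℂ))
    rw [mul_zero, add_zero] at x3
    refine x3.congr fun N => ?_
    rw [← Pool.Agent.H85.RT.avg_mul, ← Pool.Agent.H85.RT.avg_add]
    congr 1
    funext n
    have := congrFun e1 n
    have e2 : E (S^[n] ω) = (c : ℂ) * e (S^[n] ω) := this
    rw [← e2]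
    ring

end one

theorem pf_FIN (h1 : A_THW.{u,v}) (h2 : A_THX.{u,v}) : Final.{u,v} := by
  refine ⟨?_, ?_⟩
  · intro Ω P m0 m _ S hS hP0 hP h σ hh hspan hσ hsing
    exact @Pool.Agent.H85.RT.exists_set Ω m0 m _ _
      (@part_one.{u, v} Ω P m0 h1 m _ S hS hP0 hP h σ hh hspan hσ hsing)
  · intro Ω _ m _ S hS h hh
    apply Pool.Agent.H85.RT.exists_set
    have hmp : MeasurePreserving S m m := hS.toMeasurePreserving
    obtain ⟨c, e, hc, hem, heb, hee⟩ := rep1 hh
    have horb := Pool.Agent.H85.RT.ae_orbit hmp hee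
    filter_upwards [h2 Ω m S hS e hem heb, horb] with ω w1 w2
    intro X _ μ _ T hT hDR f g hf hg hσ
    filter_upwards [w1 X μ T hT hDR f g hf hg hσ] with x hx
    obtain ⟨l, hl⟩ := hx
    refine ⟨(c : ℂ) * l, (hl.const_mul (c : ℂ)).congr fun N => ?_⟩
    rw [← Pool.Agent.H85.RT.avg_mul]
    congr 1
    funext n
    exact (w2 n).symm

end Pool.Agent.H35.SS
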